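import Pool.Agent.MP_3ee8cb_gt.CZG.Const
import Pool.Agent.MP_3ee8cb_gt.D3GB.Asm
import Pool.Agent.MP_3ee8cb_gt.D3GB.RNA
import Pool.Agent.MP_3ee8cb_gt.D3GB.RAPP
import Pool.Agent.MP_3ee8cb_gt.D3GB.RCH
import Pool.Agent.MP_3ee8cb_gt.D3GB.RINJ
import Pool.Agent.MP_3ee8cb_gt.D3GB.XPOL
import Pool.Agent.MP_3ee8cb_gt.D3NP.XNL2
import Pool.Agent.MP_3ee8cb_gt.D3NP.XDV

/-! A self map of the sphere that is homotopic to a map with a left inverse has degree `±1`. -/

namespace Pool.Agent.MP_3ee8cb_gt.CZW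

open Set MeasureTheory Filter Topology Metric D3GB
open D3NP (jc dv)

/-- The cone over a self map of the sphere. -/
noncomputable def cone (H : V → V) (v : V) : V := ‖v‖ • H v

variable {H G : V → V}

theorem cone_norm (h : Sph H) {v : V} (hv : v ≠ 0) : ‖cone H v‖ = ‖v‖ := by
  rw [cone, norm_smul, h.unit v hv, norm_norm, mul_one]

theorem cone_der (h : Sph H) {v : V} (hv : v ≠ 0) :
    HasFDerivAt (cone H) (ext v (H v) (fderiv ℝ H v)) v :=
  (RINJ.der_norm hv).smul ((rHOM V H h.h0).2.1 v hv).hasFDerivAt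

theorem cone_jc (h : Sph H) {v : V} (hv : v ≠ 0) : jc (cone H) v = jac H v := by
  rw [jc, (cone_der h hv).fderiv, jac]

theorem cone_c1 (h : Sph H) : ContDiffOn ℝ 1 (cone H) {a | a ≠ 0} :=
  (contDiffOn_id.norm ℝ fun _ ha => ha).smul h.h0.c1

theorem ne0 (h : Sph H) {v : V} (hv : v ≠ 0) : H v ≠ 0 :=
  norm_ne_zero_iff.1 (by rw [h.unit v hv]; exact one_ne_zero)

theorem shell : IsPreconnected {y : V | 1 / 2 < ‖y‖ ∧ ‖y‖ < 2} := by
  have h1 : IsPreconnected (sphere (0 : V) 1) := isPreconnected_sphere (by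
    rw [← Module.finrank_eq_rank, finrank_euclideanSpace_fin]
    norm_num) 0 1
  have h2 := (h1.prod (isPreconnected_Ioo (a := (1 / 2 : ℝ)) (b := 2))).image
    (fun x : V × ℝ => x.2 • x.1) (by fun_prop)
  refine (congrArg IsPreconnected (Subset.antisymm ?_ fun y hy => ?_)).mp h2
  · rintro _ ⟨⟨p, r⟩, ⟨h3, h4⟩, rfl⟩
    have : ‖r • p‖ = r := by
      rw [norm_smul, mem_sphere_zero_iff_norm.1 h3, mul_one,
        Real.norm_of_nonneg (by linarith [h4.1])]
    exact ⟨h4.1.trans_eq this.symm, this.trans_lt h4.2⟩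
  · have n : ‖y‖ ≠ 0 := ne_of_gt (by linarith [hy.1])
    exact ⟨(‖y‖⁻¹ • y, ‖y‖), ⟨Asm.unit_mem (norm_ne_zero_iff.1 n), hy⟩, smul_inv_smul₀ n y⟩

theorem comp_con (h : Sph H) {J : V → ℝ} (hJ : Con0 J) : Con0 fun v => J (H v) * jac H v :=
  ⟨(hJ.c0.comp h.h0.c1.continuousOn fun _ hv => ne0 h hv).mul (rJC.1 H h.h0).c0,
    fun v t ht => by rw [h.h0.hom v t ht, (rJC.1 H h.h0).hom v t ht]⟩

/-- The degree is an integer. -/
theorem int (h : Sph H) : ∃ n : ℤ, ∀ J, Con0 J →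
    ∫ v in ball (0 : V) 1, J (H v) * jac H v = n * ∫ v in ball (0 : V) 1, J v := by
  set S : Set V := closedBall 0 4 \ ball 0 (1 / 4) with hS
  have mem : ∀ a, a ∈ S ↔ ‖a‖ ≤ 4 ∧ 1 / 4 ≤ ‖a‖ := fun a => by simp [hS]
  have cS : IsCompact S := (isCompact_closedBall 0 4).diff isOpen_ball
  have s0 : ∀ a ∈ S, a ≠ 0 := fun a ha e => by
    have := ((mem a).1 ha).2
    rw [e, norm_zero] at this
    linarith
  have out : ∀ a, a ≠ 0 → a ∉ S → cone H a ∉ S := fun a h1 h2 => by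
    rwa [mem, cone_norm h h1, ← mem]
  obtain ⟨n, -, hn⟩ := CZG.degree volume (G := cone H) (G' := fderiv ℝ (cone H)) (S := S) (A := S)
    (U := {y | 1 / 2 < ‖y‖ ∧ ‖y‖ < 2}) (r := 1 / 4) cS.measurableSet
    (fun x hx => (cone_der h (s0 x hx)).differentiableAt.hasFDerivAt.hasFDerivWithinAt)
    (ContinuousLinearMap.continuous_det.measurable.comp (measurable_fderiv ℝ _))
    (ContinuousOn.integrableOn_compact cS
      (((rJC.1 H h.h0).c0.mono s0).congr fun x hx => cone_jc h (s0 x hx)))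
    ((isOpen_lt continuous_const continuous_norm).inter
      (isOpen_lt continuous_norm continuous_const))
    shell ⟨bv 0, by simp [bv]; norm_num⟩ (by norm_num) (fun y hy a ha => by
      rw [mem_closedBall, dist_eq_norm] at ha
      have := abs_le.1 ((abs_norm_sub_norm_le a y).trans ha)
      rw [mem]
      constructor <;> linarith [hy.1, hy.2, this.1, this.2]) fun φ hφ ξ => by
      have c1 : ContDiffOn ℝ 1 (fun b => φ (cone H b) • ξ) {a | a ≠ 0} :=
        (hφ.1.comp_contDiffOn (cone_c1 h)).smul contDiffOn_const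
      have hz : ∀ a, a ≠ 0 → a ∉ S → φ (cone H a) • ξ = 0 := fun a h1 h2 => by
        rw [image_eq_zero_of_notMem_tsupport fun k => out a h1 h2 (hφ.2.2 k), zero_smul]
      rw [← D3NP.xNL2 D3NP.xDV _ _ S (cone_c1 h) c1 cS (fun k => s0 0 k rfl) hz,
        setIntegral_eq_of_subset_of_forall_sdiff_eq_zero (s := S) isOpen_ne.measurableSet s0
          fun a ha => (D3NP.xDV.int _ _ S (cone_c1 h) c1 cS (fun k => s0 0 k rfl) hz).2 a ha.1 ha.2]
      refine setIntegral_congr_fun cS.measurableSet fun a ha => ?_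
      have d := (hφ.1.differentiable one_ne_zero _).hasFDerivAt.comp a
        (cone_der h (s0 a ha)).differentiableAt.hasFDerivAt
      have d2 : fderiv ℝ (fun b => φ (cone H b)) a = _ := d.fderiv
      simp only [dv, D3NP.XDV.one (u := fun b => φ (cone H b)) d.differentiableAt, d2,
        D3NP.XDV.tsmul, ContinuousLinearMap.comp_apply, rDET3 _]
      exact D3NP.XDV.cramer _ _ _ _ _
  refine ⟨n, fun J hJ => ?_⟩
  let b : ContDiffBump (1 : ℝ) := ⟨1 / 8, 1 / 4, by norm_num, by norm_num⟩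
  have b0 : ∀ r, r ∉ Icc (3 / 4 : ℝ) (5 / 4) → b r = 0 := fun r hr => b.zero_of_le_dist (by
    by_contra k
    rw [not_le, Real.dist_eq, abs_lt, show b.rOut = 1 / 4 from rfl] at k
    exact hr ⟨by linarith [k.1], by linarith [k.2]⟩)
  obtain ⟨C, hC⟩ := XPOL.bdd hJ
  have e := hn (fun y => b ‖y‖ * J y) ((b.continuous.comp continuous_norm).measurable.mul
    (measurable_of_continuousOn_compl_singleton 0 hJ.c0)) (max C |J 0|) (fun y => by
      rw [abs_mul, abs_of_nonneg b.nonneg]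
      refine (mul_le_of_le_one_left (abs_nonneg _) b.le_one).trans ?_
      rcases eq_or_ne y 0 with rfl | k
      exacts [le_max_right _ _, le_max_of_le_left (hC y k)])
    fun y hy => by rw [b0 _ fun k => hy ⟨by linarith [k.1], by linarith [k.2]⟩, zero_mul]
  have e2 : ∫ x in S, b ‖cone H x‖ * J (cone H x) * (fderiv ℝ (cone H) x).det =
      ∫ x, b ‖x‖ * (J (H x) * jac H x) := by
    refine (setIntegral_congr_fun cS.measurableSet fun a ha => ?_).trans
      (setIntegral_eq_integral_of_forall_compl_eq_zero fun x hx => by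
        rw [b0 _ fun k => hx ((mem x).2 ⟨by linarith [k.2], by linarith [k.1]⟩), zero_mul])
    rw [cone_norm h (s0 a ha), ← cone_jc h (s0 a ha), jc, mul_assoc, cone,
      hJ.hom _ _ (norm_pos_iff.2 (s0 a ha))]
  rw [e2, (xPOL _ b _ _ (comp_con h hJ) b.continuous (by norm_num) b0).2,
    (xPOL _ b _ _ hJ b.continuous (by norm_num) b0).2, mul_left_comm] at e
  have p : 0 < ∫ r : ℝ, b r * r ^ 2 :=
    (b.continuous.mul (continuous_pow 2)).integral_pos_of_hasCompactSupport_nonneg_nonzero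
      b.hasCompactSupport.mul_right (fun r => mul_nonneg b.nonneg (sq_nonneg r)) (x := 1)
      (by simp [b.one_of_mem_closedBall (mem_closedBall_self b.rIn_pos.le)])
  exact mul_left_cancel₀ (by positivity) e

theorem sph_comp (g : Sph G) (h : Sph H) : Sph fun v => G (H v) :=
  ⟨⟨g.h0.c1.comp h.h0.c1 fun _ hv => ne0 h hv, fun v t ht => by rw [h.h0.hom v t ht]⟩,
    fun _ hv => g.unit _ (ne0 h hv)⟩

theorem jac_comp (g : Sph G) (h : Sph H) {v : V} (hv : v ≠ 0) :
    jac (fun v => G (H v)) v = jac G (H v) * jac H v := by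
  have n : cone H v ≠ 0 := norm_ne_zero_iff.1 (by rwa [cone_norm h hv, norm_ne_zero_iff])
  have e : cone (fun v => G (H v)) =ᶠ[𝓝 v] cone G ∘ cone H := by
    filter_upwards [isOpen_ne.mem_nhds hv] with x hx
    rw [Function.comp_apply, cone, cone, cone_norm h hx, cone, g.h0.hom _ _ (norm_pos_iff.2 hx)]
  rw [← cone_jc (sph_comp g h) hv, jc, e.fderiv_eq,
    ((cone_der g n).comp v (cone_der h hv)).fderiv, ← (rJC.1 G g.h0).hom _ _ (norm_pos_iff.2 hv)]
  exact LinearMap.det_comp _ _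

theorem sph_un : Sph fun v : V => ‖v‖⁻¹ • v :=
  ⟨⟨fun _ hv => (RAPP.unit_cd hv).contDiffWithinAt, RAPP.unit_hom⟩,
    fun _ hv => mem_sphere_zero_iff_norm.1 (Asm.unit_mem hv)⟩

theorem jac_un {v : V} (hv : v ≠ 0) : jac (fun v : V => ‖v‖⁻¹ • v) v = 1 := by
  have e : cone (fun v : V => ‖v‖⁻¹ • v) =ᶠ[𝓝 v] id := by
    filter_upwards [isOpen_ne.mem_nhds hv] with x hx
    exact smul_inv_smul₀ (norm_ne_zero_iff.2 hx) x
  rw [← cone_jc sph_un hv, jc, e.fderiv_eq, fderiv_id]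
  exact LinearMap.det_id

theorem deg (H Th L : V → V) (K : ℝ × V → V) (h : Sph H) (ht : Htp H Th K)
    (cL : ContinuousOn L (sphere 0 1))
    (inv : ∀ p ∈ sphere (0 : V) 1, ‖Th p‖ = 1 ∧ ‖L p‖ = 1 ∧ L (Th p) = p) :
    |∫ v in ball (0 : V) 1, jac H v| ≤ volume.real (ball (0 : V) 1) := by
  obtain ⟨G, g, hG⟩ := rAPP L cL fun p hp => (inv p hp).2.1
  have cG : ContinuousOn (fun x => G (K x)) (Icc 0 1 ×ˢ sphere (0 : V) 1) :=
    g.h0.c1.continuousOn.comp ht.cont fun x hx => ht.ne x.1 hx.1 x.2 hx.2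
  have e1 : ∀ p ∈ sphere (0 : V) 1, G (K (1, p)) = G (Th p) := fun p hp => by
    obtain ⟨t, t0, e⟩ := ht.one p hp
    rw [e, g.h0.hom _ _ t0]
  have e := rCH (rNA rNL xPOL rHOM rDET rJC) rAPP _ _
    (fun x => G (K x) + x.1 • (x.2 - G (K (1, x.2)))) (sph_comp g h) sph_un
    ⟨cG.add (continuousOn_fst.smul (continuousOn_snd.sub (cG.comp
      (f := fun x : ℝ × V => ((1 : ℝ), x.2)) (by fun_prop)
        fun x hx => ⟨⟨zero_le_one, le_rfl⟩, hx.2⟩))), fun s hs p hp k => ?_, fun p hp => ?_,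
      fun p hp => ⟨1, one_pos, by simp [mem_sphere_zero_iff_norm.1 hp]⟩⟩
  · have ae : ∀ᵐ v : V ∂(volume.restrict (ball (0 : V) 1)), v ≠ 0 :=
      ae_restrict_of_ae (compl_mem_ae_iff.2 (measure_singleton (0 : V)))
    obtain ⟨n, hn⟩ := int h
    obtain ⟨m, hm⟩ := int g
    have one : Con0 fun _ => 1 := ⟨continuousOn_const, fun _ _ _ => rfl⟩
    have h1 := hn _ one
    have h2 := hm _ one
    simp only [one_mul, setIntegral_const, smul_eq_mul, mul_one] at h1 h2
    rw [integral_congr_ae (ae.mono fun v hv => jac_comp g h hv), hn _ (rJC.1 G g.h0), h2,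
      integral_congr_ae (ae.mono fun v hv => jac_un hv), setIntegral_const, smul_eq_mul, mul_one,
      ← mul_assoc] at e
    have p : 0 < volume.real (ball (0 : V) 1) :=
      ENNReal.toReal_pos (measure_ball_pos _ _ one_pos).ne' measure_ball_lt_top.ne
    have e3 : n * m = 1 := by exact_mod_cast mul_right_cancel₀ p.ne' (e.trans (one_mul _).symm)
    rw [h1, abs_mul, abs_of_pos p]
    rcases Int.eq_one_or_neg_one_of_mul_eq_one e3 with rfl | rfl <;> simp
  · have a := hG (Th p) (mem_sphere_zero_iff_norm.2 (inv p hp).1)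
    have b := congrArg norm (eq_neg_of_add_eq_zero_left k)
    dsimp only at b
    rw [g.unit _ (ht.ne s hs p hp), norm_neg, norm_smul, e1 p hp, norm_sub_rev,
      Real.norm_of_nonneg hs.1] at b
    rw [(inv p hp).2.2] at a
    nlinarith [hs.1, hs.2, norm_nonneg (G (Th p) - p)]
  · obtain ⟨t, t0, e⟩ := ht.zero p hp
    exact ⟨1, one_pos, by simp [e, g.h0.hom _ _ t0]⟩

end Pool.Agent.MP_3ee8cb_gt.CZW
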