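import Pool.Agent.MP_3ee8cb_gt.CZW.Deg

/-! A self map of the sphere that is homotopic to an injective map has degree at most one. -/

namespace Pool.Agent.MP_3ee8cb_gt.CZW

open Set MeasureTheory Filter Topology Metric D3GB
open RCH (dir dir_norm dir_smul)

theorem deg2 (H Th : V → V) (K : ℝ × V → V) (h : Sph H) (ht : Htp H Th K)
    (hu : ∀ p ∈ sphere (0 : V) 1, ‖Th p‖ = 1) (inj : InjOn Th (sphere 0 1)) :
    |∫ v in ball (0 : V) 1, jac H v| ≤ volume.real (ball (0 : V) 1) := by
  classical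
  have hc : ContinuousOn (fun x => dir (K x)) (Icc 0 1 ×ˢ sphere (0 : V) 1) :=
    (ht.cont.norm.inv₀ fun x hx => (norm_pos_iff.2 (ht.ne x.1 hx.1 x.2 hx.2)).ne').smul ht.cont
  have e1 : ∀ p ∈ sphere (0 : V) 1, dir (K (1, p)) = Th p := fun p hp => by
    obtain ⟨t, t0, e⟩ := ht.one p hp
    rw [e, dir_smul t0 (hu p hp)]
  by_cases su : ∀ u ∈ sphere (0 : V) 1, ∃ p ∈ sphere (0 : V) 1, Th p = u
  · have cT : ContinuousOn Th (sphere 0 1) := (hc.comp (f := fun p : V => ((1 : ℝ), p))
      (by fun_prop) fun p hp => ⟨⟨zero_le_one, le_rfl⟩, hp⟩).congr fun p hp => (e1 p hp).symm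
    let e : sphere (0 : V) 1 ≃ sphere (0 : V) 1 := Equiv.ofBijective
      (fun p => ⟨Th p, mem_sphere_zero_iff_norm.2 (hu p p.2)⟩)
      ⟨fun p q k => Subtype.ext (inj p.2 q.2 (congrArg Subtype.val k)), fun u => by
        obtain ⟨p, hp, k⟩ := su u u.2
        exact ⟨⟨p, hp⟩, Subtype.ext k⟩⟩
    have ce : Continuous e := (continuousOn_iff_continuous_domRestrict.1 cT).subtype_mk _
    let L : V → V := fun u => if k : u ∈ sphere (0 : V) 1 then (e.symm ⟨u, k⟩).1 else 0
    have hL : ∀ u : sphere (0 : V) 1, L u = e.symm u := fun u => dif_pos u.2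
    refine deg H Th L K h ht (continuousOn_iff_continuous_domRestrict.2
      ((continuous_subtype_val.comp ce.homeoOfEquivCompactToT2.symm.continuous).congr
        fun u => (hL u).symm)) fun p hp => ⟨hu p hp, ?_, ?_⟩
    · rw [hL ⟨p, hp⟩]
      exact mem_sphere_zero_iff_norm.1 (e.symm _).2
    · exact (hL (e ⟨p, hp⟩)).trans (by rw [e.symm_apply_apply])
  · obtain ⟨u, hu1, ne⟩ : ∃ u ∈ sphere (0 : V) 1, ∀ p ∈ sphere (0 : V) 1, Th p ≠ u := by
      by_contra k
      exact su fun u h1 => not_not.1 fun j => k ⟨u, h1, fun p hp e => j ⟨p, hp, e⟩⟩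
    have n := mem_sphere_zero_iff_norm.1 hu1
    have mem : ∀ s ∈ Icc (0 : ℝ) 1, min (2 * s) 1 ∈ Icc (0 : ℝ) 1 := fun s hs =>
      ⟨le_min (by linarith [hs.1]) zero_le_one, min_le_right _ _⟩
    rw [rCH (rNA rNL xPOL rHOM rDET rJC) rAPP H (fun _ => -u)
      (fun x => (1 - max (2 * x.1 - 1) 0) • dir (K (min (2 * x.1) 1, x.2)) -
        max (2 * x.1 - 1) 0 • u) h ⟨⟨contDiffOn_const, fun _ _ _ => rfl⟩, fun _ _ => by simp [n]⟩
      ⟨((by fun_prop : Continuous fun x : ℝ × V => 1 - max (2 * x.1 - 1) 0).continuousOn.smul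
        (hc.comp (f := fun x : ℝ × V => (min (2 * x.1) 1, x.2)) (by fun_prop)
          fun x hx => ⟨mem _ hx.1, hx.2⟩)).sub (by fun_prop), fun s hs p hp k => ?_,
        fun p hp => ?_, fun p _ => ⟨1, one_pos, by norm_num⟩⟩]
    · have ae : ∀ᵐ v : V ∂(volume.restrict (ball (0 : V) 1)), v ≠ 0 :=
        ae_restrict_of_ae (compl_mem_ae_iff.2 (measure_singleton (0 : V)))
      rw [integral_congr_ae (g := fun _ => 0) (ae.mono fun v hv => by
        simp only [jac, fderiv_fun_const, Pi.zero_apply]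
        rw [rDET v _ 0 hv rfl]
        simp [ev, trip])]
      simp
    · have d := dir_norm (ht.ne _ (mem s hs) p hp)
      dsimp only at k
      rcases le_total (2 * s) 1 with c | c
      · rw [max_eq_right (by linarith), sub_zero, one_smul, zero_smul, sub_zero] at k
        rw [k, norm_zero] at d
        exact zero_ne_one d
      · rw [max_eq_left (by linarith), min_eq_right c, e1 p hp, sub_eq_zero] at k
        have k2 := congrArg norm k
        rw [norm_smul, norm_smul, hu p hp, n, Real.norm_of_nonneg (by linarith [hs.2]),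
          Real.norm_of_nonneg (by linarith), mul_one, mul_one] at k2
        rw [k2] at k
        exact ne p hp (smul_right_injective V (ne_of_gt (by linarith)) k)
    · obtain ⟨t, t0, e⟩ := ht.zero p hp
      exact ⟨1, one_pos, by simp [e, dir_smul t0 (h.unit p (RCH.ne0 hp))]⟩

end Pool.Agent.MP_3ee8cb_gt.CZW
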