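import Pool.Agent.MP_3ee8cb_gt.CZM.Map
import Pool.Agent.MP_3ee8cb_gt.CZ.Defs

/-! The Gauss map of a fibre is homotopic to a homeomorphism. -/

namespace Pool.Agent.MP_3ee8cb_gt.CZW

open Set Filter Topology Metric D3
open CR (Met UT ng)
open SC (dn nu Ort nu_mem nu_cd dn_nu nu_dn norm_dn)

variable {g h : Met 3} {m m' : MF} {Γ Λ : Type} [Group Γ] [Group Λ] [MulAction Γ V]
  [MulAction Λ V] {Φ : ℝ → UT g → UT g} {Ψ : ℝ → UT h → UT h} {F : UT g ≃ₜ UT h} {a : ℝ}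

/-- The unit vector with given frame coordinates. -/
theorem lift (hm : m.OK) (ho : Ort g m) (x : V) : ∃ ν : V → UT g, ContinuousOn ν {q | q ≠ 0} ∧
    (∀ q, q ≠ 0 → dn m ‖q‖ (ν q) = (x, q)) ∧ ∀ p : UT g, p.1.1 = x → ν (dn m 1 p).2 = p := by
  classical
  have b : ((x, D3GB.bv 0) : V × V).2 ≠ 0 := fun e => by
    simpa [D3GB.bv] using congrArg (fun v : V => v 0) e
  let ν : V → UT g := fun q => if hq : ((x, q) : V × V).2 ≠ 0 then ⟨nu m (x, q), nu_mem ho hq⟩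
    else ⟨_, nu_mem ho b⟩
  have e : ∀ q (hq : q ≠ 0), ν q = ⟨nu m (x, q), nu_mem (z := (x, q)) ho hq⟩ := fun q hq =>
    dif_pos hq
  refine ⟨ν, IsInducing.subtypeVal.continuousOn_iff.2 (ContinuousOn.congr
    (f := fun q => nu m (x, q)) (fun q hq => ?_) fun q hq => ?_), fun q hq => ?_, ?_⟩
  · exact ((nu_cd hm (z := (x, q)) hq).continuousAt.comp (f := fun q : V => (x, q))
      (by fun_prop)).continuousWithinAt
  · rw [Function.comp_apply, e q hq]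
  · rw [e q hq]
    exact dn_nu hm ho (z := (x, q)) hq
  · rintro p rfl
    rw [e _ (SC.dn_ne hm ho one_ne_zero p)]
    exact Subtype.ext (nu_dn hm ho one_pos p)

theorem dn_cont (hm : m.OK) : Continuous fun p : UT g => (dn m 1 p).2 :=
  ((hm.cS.continuous.comp continuous_subtype_val.fst).clm_apply
    continuous_subtype_val.snd).const_smul (1 : ℝ)

theorem htp (C : CZM.CH g h Γ Λ Φ Ψ F a) (hm : m.OK) (hm' : m'.OK) (ho : Ort g m) (ho' : Ort h m')
    {φ : V × V → V × V} (R : CZ.Rep m m' F φ) (x : V) : ∃ (Th L : V → V) (K : ℝ × V → V),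
      D3GB.Htp (fun q => (φ (x, q)).2) Th K ∧ ContinuousOn L (sphere 0 1) ∧
        ∀ p ∈ sphere (0 : V) 1, ‖Th p‖ = 1 ∧ ‖L p‖ = 1 ∧ L (Th p) = p := by
  obtain ⟨D, hD⟩ := C.nh.as
  obtain ⟨Q, hQ⟩ := C.qs
  obtain ⟨ν, n1, n2, -⟩ := lift hm ho x
  obtain ⟨ν', m1, -, m3⟩ := lift hm' ho' 0
  have ne : ∀ p ∈ sphere (0 : V) 1, p ≠ 0 := fun p hp e => by simp [e] at hp
  have n3 : ∀ p ∈ sphere (0 : V) 1, dn m 1 (ν p) = (x, p) := fun p hp => by
    simpa only [mem_sphere_zero_iff_norm.1 hp] using n2 p (ne p hp)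
  have c : ContinuousOn (fun y : ℝ × V => F (ν y.2)) (Icc 0 1 ×ˢ sphere (0 : V) 1) :=
    F.continuous.comp_continuousOn (n1.comp continuousOn_snd fun y hy => ne _ hy.2)
  refine ⟨fun q => (dn m' 1 (D (0, F (ν q)))).2, fun u => (dn m 1 (Q (x, ν' u))).2,
    fun y => (dn m' 1 (D ((1 - y.1) • (F (ν y.2)).1.1, F (ν y.2)))).2,
    ⟨(dn_cont hm').comp_continuousOn (hD.cont.comp_continuousOn (ContinuousOn.prodMk
      ((continuousOn_const.sub continuousOn_fst).smul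
        (continuous_subtype_val.fst.comp_continuousOn c)) c)),
      fun s _ p _ => SC.dn_ne hm' ho' one_ne_zero _, fun p hp => ⟨1, one_pos, ?_⟩,
      fun p _ => ⟨1, one_pos, by simp⟩⟩,
    (dn_cont hm).comp_continuousOn (hQ.cont.comp_continuousOn
      (continuousOn_const.prodMk (m1.mono ne))), fun p hp => ⟨?_, ?_, ?_⟩⟩
  · simp only [sub_zero, one_smul]
    rw [← hD.uniq ((F (ν p)).1.1, F (ν p)) _ rfl (C.nh.refl _), ← R 1 _ one_ne_zero, n3 p hp]
  · rw [norm_dn hm' ho', abs_one]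
  · rw [norm_dn hm ho, abs_one]
  · simp only
    rw [m3 _ (hD.foot _), ← hQ.uniq (x, D (0, F (ν p))) (ν p) (congrArg Prod.fst (n3 p hp))
      (C.nh.symm (hD.fw _)), n3 p hp]

end Pool.Agent.MP_3ee8cb_gt.CZW
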