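import Pool.Agent.MP_3ee8cb_gt.CZW.Deg2
import Pool.Agent.MP_3ee8cb_gt.CZ.Spec
import Pool.Agent.MP_3ee8cb_gt.CZI.Dom

/-! The Gauss map of a front has degree at most one. -/

namespace Pool.Agent.MP_3ee8cb_gt.CZW

open Set MeasureTheory Filter Topology Metric D3GB
open D3 (MF)
open D3MO (S2)

variable {m : MF} {σ : V → V × V} {b : V × V → V → ℝ} {T : V → S2 → S2} {G : V → S2 → V}

theorem htp_tx (hm : m.OK) (c0 : ContinuousOn σ {q | q ≠ 0}) (h : CZ.Tx m σ b T G) :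
    ∃ (Th : V → V) (K : ℝ × V → V), Htp (fun q => (σ q).2) Th K ∧
      (∀ s, ∀ p ∈ sphere (0 : V) 1, ‖K (s, p)‖ = 1) ∧ (∀ p ∈ sphere (0 : V) 1, K (0, p) = (σ p).2) ∧
      (∀ p ∈ sphere (0 : V) 1, K (1, p) = Th p) ∧ InjOn Th (sphere 0 1) := by
  classical
  let ι : V → S2 := fun p => if k : p ∈ sphere (0 : V) 1 then ⟨p, k⟩ else ⟨bv 0, by simp [bv]⟩
  have e : ∀ p ∈ sphere (0 : V) 1, (ι p).1 = p := fun p hp => by simp only [ι, dif_pos hp]
  have ci : ContinuousOn ι (sphere 0 1) :=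
    IsInducing.subtypeVal.continuousOn_iff.2 (continuousOn_id.congr e)
  have z : ∀ p ∈ sphere (0 : V) 1, G ((1 - (0 : ℝ)) • (σ p).1) (ι p) = (σ p).2 := fun p hp => by
    have := h.on (ι p) 0
    rwa [CZ.cc, hm.zero, e p hp, ← one_smul ℝ (σ p).1, ← sub_zero (1 : ℝ)] at this
  refine ⟨fun p => G 0 (ι p), fun x => G ((1 - x.1) • (σ x.2).1) (ι x.2),
    ⟨h.cG.comp_continuousOn (((continuousOn_const.sub continuousOn_fst).smul
      (c0.comp continuousOn_snd fun x hx => RCH.ne0 hx.2).fst).prodMk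
        (ci.comp continuousOn_snd fun x hx => hx.2)),
      fun s _ p _ => norm_ne_zero_iff.1 (by rw [h.unit]; exact one_ne_zero),
      fun p hp => ⟨1, one_pos, by rw [one_smul]; exact z p hp⟩,
      fun p _ => ⟨1, one_pos, by simp⟩⟩, fun _ _ _ => h.unit _ _, z, fun p _ => by simp,
    fun p hp q hq k => ?_⟩
  rw [← e p hp, ← e q hq, h.inj 0 k]

/-- The degree bound for an approximation of the Gauss map. -/
theorem deg_tx (hm : m.OK) (c0 : ContinuousOn σ {q | q ≠ 0}) (h : CZ.Tx m σ b T G) {H : V → V}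
    (hH : Sph H) (cl : ∀ p ∈ sphere (0 : V) 1, ‖H p - (σ p).2‖ < 1) :
    |∫ v in ball (0 : V) 1, jac H v| ≤ volume.real (ball (0 : V) 1) := by
  obtain ⟨Th, K, k1, k2, k3, k4, k5⟩ := htp_tx hm c0 h
  refine deg2 H Th (fun x => K x + (1 - x.1) • (H x.2 - (σ x.2).2)) hH
    ⟨k1.cont.add ((continuousOn_const.sub continuousOn_fst).smul
      ((hH.h0.c1.continuousOn.comp continuousOn_snd fun x hx => RCH.ne0 hx.2).sub
        (c0.comp continuousOn_snd fun x hx => RCH.ne0 hx.2).snd)), fun s hs p hp k => ?_,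
      fun p hp => ⟨1, one_pos, by simp [k3 p hp]⟩, fun p hp => ⟨1, one_pos, by simp [k4 p hp]⟩⟩
    (fun p hp => by rw [← k4 p hp, k2 1 p hp]) k5
  have a := congrArg norm (eq_neg_of_add_eq_zero_left k)
  dsimp only at a
  rw [k2 s p hp, norm_neg, norm_smul, Real.norm_of_nonneg (by linarith [hs.2])] at a
  nlinarith [hs.1, hs.2, cl p hp, norm_nonneg (H p - (σ p).2)]

/-- An injective self map of the sphere is onto. -/
theorem onto {Th : V → V} (c : ContinuousOn Th (sphere 0 1))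
    (hu : ∀ p ∈ sphere (0 : V) 1, ‖Th p‖ = 1) (inj : InjOn Th (sphere 0 1)) :
    sphere (0 : V) 1 ⊆ Th '' sphere 0 1 := by
  let f : V → V := fun v => ‖v‖ • Th (‖v‖⁻¹ • v)
  have n : ∀ v, v ≠ 0 → ‖f v‖ = ‖v‖ := fun v hv => by
    rw [norm_smul, hu _ (Asm.unit_mem hv), norm_norm, mul_one]
  have un : ∀ v, v ≠ 0 → ‖f v‖⁻¹ • f v = Th (‖v‖⁻¹ • v) := fun v hv => by
    rw [n v hv, inv_smul_smul₀ (norm_ne_zero_iff.2 hv)]
  have o : IsOpen (f '' {v | v ≠ 0}) := CZI.isOpen_image rfl isOpen_ne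
    (continuousOn_id.norm.smul (c.comp
      (fun v hv => (RAPP.unit_cd hv).continuousAt.continuousWithinAt) fun v hv => Asm.unit_mem hv))
    fun v hv w hw e => by
      have e1 : ‖v‖ = ‖w‖ := by rw [← n v hv, e, n w hw]
      have e2 := inj (Asm.unit_mem hv) (Asm.unit_mem hw) (by rw [← un v hv, e, un w hw])
      rw [← e1] at e2
      exact smul_right_injective V (inv_ne_zero (norm_ne_zero_iff.2 hv)) e2
  have cl : ∀ y ∈ closure (f '' {v | v ≠ 0}) ∩ sphere 0 1, y ∈ Th '' sphere 0 1 := fun y hy => by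
    have := (RAPP.unit_cd (RCH.ne0 hy.2)).continuousAt.continuousWithinAt.mem_closure_image hy.1
    rw [mem_sphere_zero_iff_norm.1 hy.2, inv_one, one_smul] at this
    refine ((isCompact_sphere 0 1).image_of_continuousOn c).isClosed.closure_subset_iff.2 ?_ this
    rintro _ ⟨_, ⟨v, hv, rfl⟩, rfl⟩
    exact ⟨_, Asm.unit_mem hv, (un v hv).symm⟩
  have im : Th '' sphere 0 1 ⊆ f '' {v | v ≠ 0} := by
    rintro _ ⟨p, hp, rfl⟩
    exact ⟨p, RCH.ne0 hp, by simp only [f, mem_sphere_zero_iff_norm.1 hp, inv_one, one_smul]⟩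
  have b : bv 0 ∈ sphere (0 : V) 1 := by simp [bv]
  have s := (isPreconnected_sphere (by
    rw [← Module.finrank_eq_rank, finrank_euclideanSpace_fin]
    norm_num) (0 : V) 1).subset_of_closure_inter_subset o
    ⟨_, mem_sphere_zero_iff_norm.2 (hu _ b), im ⟨_, b, rfl⟩⟩ fun y hy => im (cl y hy)
  exact fun y hy => cl y ⟨subset_closure (s hy), hy⟩

theorem left {Th : V → V} (c : ContinuousOn Th (sphere 0 1))
    (hu : ∀ p ∈ sphere (0 : V) 1, ‖Th p‖ = 1) (inj : InjOn Th (sphere 0 1)) :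
    ∃ L : V → V, ContinuousOn L (sphere 0 1) ∧
      ∀ p ∈ sphere (0 : V) 1, ‖L p‖ = 1 ∧ L (Th p) = p := by
  classical
  let e : sphere (0 : V) 1 ≃ sphere (0 : V) 1 := Equiv.ofBijective
    (fun p => ⟨Th p, mem_sphere_zero_iff_norm.2 (hu p p.2)⟩)
    ⟨fun p q k => Subtype.ext (inj p.2 q.2 (congrArg Subtype.val k)), fun u => by
      obtain ⟨p, hp, k⟩ := onto c hu inj u.2
      exact ⟨⟨p, hp⟩, Subtype.ext k⟩⟩
  have ce : Continuous e := (continuousOn_iff_continuous_domRestrict.1 c).subtype_mk _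
  let L : V → V := fun u => if k : u ∈ sphere (0 : V) 1 then (e.symm ⟨u, k⟩).1 else 0
  have hL : ∀ u : sphere (0 : V) 1, L u = e.symm u := fun u => dif_pos u.2
  refine ⟨L, continuousOn_iff_continuous_domRestrict.2
    ((continuous_subtype_val.comp ce.homeoOfEquivCompactToT2.symm.continuous).congr
      fun u => (hL u).symm), fun p hp => ⟨?_, ?_⟩⟩
  · rw [hL ⟨p, hp⟩]
    exact mem_sphere_zero_iff_norm.1 (e.symm _).2
  · exact (hL (e ⟨p, hp⟩)).trans (by rw [e.symm_apply_apply])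

/-- The homotopy and the left inverse. -/
theorem left_tx (hm : m.OK) (c0 : ContinuousOn σ {q | q ≠ 0}) (h : CZ.Tx m σ b T G) :
    ∃ (L : V → V) (κ : ℝ × V → V), ContinuousOn κ (Icc 0 1 ×ˢ sphere 0 1) ∧
      (∀ s ∈ Icc (0 : ℝ) 1, ∀ p ∈ sphere (0 : V) 1, ‖κ (s, p)‖ = 1) ∧
      (∀ p ∈ sphere (0 : V) 1, κ (0, p) = (σ p).2) ∧ ContinuousOn L (sphere 0 1) ∧
      ∀ p ∈ sphere (0 : V) 1, ‖L p‖ = 1 ∧ L (κ (1, p)) = p := by
  obtain ⟨Th, K, k1, k2, k3, k4, k5⟩ := htp_tx hm c0 h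
  obtain ⟨L, l1, l2⟩ := left ((k1.cont.comp (f := fun p : V => ((1 : ℝ), p)) (by fun_prop)
    fun p hp => ⟨⟨zero_le_one, le_rfl⟩, hp⟩).congr fun p hp => (k4 p hp).symm)
    (fun p hp => by rw [← k4 p hp, k2 1 p hp]) k5
  exact ⟨L, K, k1.cont, fun s _ => k2 s, k3, l1, fun p hp => by rw [k4 p hp]; exact l2 p hp⟩

end Pool.Agent.MP_3ee8cb_gt.CZW
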