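import Mathlib

/-! A function with zero weak gradient is constant. -/

namespace Pool.Agent.MP_3ee8cb_gt.CZW

open Set MeasureTheory Filter Topology Metric ContinuousLinearMap
open scoped Convolution

variable {W : Type} [NormedAddCommGroup W] [NormedSpace ℝ W] [FiniteDimensional ℝ W]
  [MeasurableSpace W] [BorelSpace W] (μ : Measure W) [μ.IsAddHaarMeasure] {n : W → ℝ} {U : Set W}

theorem wg_ball {x : W} {r : ℝ} (r0 : 0 < r) (hn : Integrable n μ)
    (h : ∀ g : W → ℝ, ContDiff ℝ 1 g → tsupport g ⊆ closedBall x (2 * r) → ∀ e,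
      ∫ a, n a * fderiv ℝ g a e ∂μ = 0) : ∃ c, ∀ᵐ a ∂μ, a ∈ ball x r → n a = c := by
  let φ : ℕ → ContDiffBump (0 : W) := fun i => ⟨r / (i + 1) / 2, r / (i + 1), by positivity,
    half_lt_self (by positivity)⟩
  have l := ContDiffBump.ae_convolution_tendsto_right_of_locallyIntegrable (φ := φ) (l := atTop)
    (K := 2) (μ := μ) (by
      simpa [φ, div_eq_mul_inv] using
        (tendsto_one_div_add_atTop_nhds_zero_nat (𝕜 := ℝ)).const_mul r)
    (Eventually.of_forall fun i => by simp only [φ]; linarith) hn.locallyIntegrable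
  have k : ∀ i, ∀ y ∈ ball x r, ∀ y' ∈ ball x r,
      ((φ i).normed μ ⋆[lsmul ℝ ℝ, μ] n) y = ((φ i).normed μ ⋆[lsmul ℝ ℝ, μ] n) y' := by
    intro i y hy y' hy'
    have cs := (φ i).hasCompactSupport_normed (μ := μ)
    have c1 : ContDiff ℝ 1 ((φ i).normed μ) := (φ i).contDiff_normed
    rw [← convolution_flip]
    have d := cs.hasFDerivAt_convolution_right (lsmul ℝ ℝ).flip hn.locallyIntegrable c1
    refine (convex_ball x r).is_const_of_fderivWithin_eq_zero (𝕜 := ℝ)
      (fun z _ => (d z).differentiableAt.differentiableWithinAt) (fun z hz => ?_) hy hy'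
    rw [fderivWithin_of_isOpen isOpen_ball hz, (d z).fderiv]
    ext e
    rw [convolution_precompR_apply _ hn.locallyIntegrable (cs.fderiv ℝ)
      (c1.continuous_fderiv one_ne_zero), convolution_def]
    have := h (fun a => (φ i).normed μ (z - a)) (c1.comp (contDiff_const.sub contDiff_id))
      (closure_minimal (fun a ha => ?_) isClosed_closedBall) (-e)
    · refine Eq.trans (integral_congr_ae (Eventually.of_forall fun a => ?_)) this
      have d2 := (c1.differentiable one_ne_zero (z - a)).hasFDerivAt.comp a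
        ((hasFDerivAt_id a).const_sub z)
      have d3 : fderiv ℝ (fun a => (φ i).normed μ (z - a)) a = _ := d2.fderiv
      simp only [d3]
      simp [mul_comm]
    · have h1 : z - a ∈ ball (0 : W) (φ i).rOut := (φ i).support_normed_eq (μ := μ) ▸ ha
      have h2 : (φ i).rOut ≤ r := div_le_self r0.le (by simp)
      rw [mem_ball_zero_iff, ← dist_eq_norm, dist_comm] at h1
      have := dist_triangle a z x
      rw [mem_ball] at hz
      rw [mem_closedBall]
      linarith
  obtain ⟨y, y1, y2⟩ : ∃ y ∈ ball x r,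
      Tendsto (fun i => ((φ i).normed μ ⋆[lsmul ℝ ℝ, μ] n) y) atTop (𝓝 (n y)) := by
    by_contra hc
    refine (measure_ball_pos μ x r0).ne' (measure_eq_zero_iff_ae_notMem.2 (l.mono fun a ha k => ?_))
    exact hc ⟨a, k, ha⟩
  refine ⟨n y, l.mono fun a ha b => tendsto_nhds_unique ha ?_⟩
  simpa only [fun i => k i a b y y1] using y2

theorem wg (hU : IsOpen U) (hc : IsPreconnected U) (hn : LocallyIntegrableOn n U μ)
    (h : ∀ g : W → ℝ, ContDiff ℝ 1 g → HasCompactSupport g → tsupport g ⊆ U → ∀ e,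
      ∫ a, n a * fderiv ℝ g a e ∂μ = 0) : ∃ c, ∀ᵐ a ∂μ, a ∈ U → n a = c := by
  have : ProperSpace W := FiniteDimensional.proper_real W
  have loc : ∀ x ∈ U, ∃ r > 0, ∃ c, ∀ᵐ a ∂μ, a ∈ ball x r → n a = c := by
    intro x hx
    obtain ⟨r, r0, hr⟩ := Metric.nhds_basis_closedBall.mem_iff.1 (hU.mem_nhds hx)
    have e : 2 * (r / 2) = r := by ring
    have hi := (integrable_indicator_iff measurableSet_closedBall).2
      (hn.integrableOn_compact_subset hr (isCompact_closedBall x r))
    obtain ⟨c, hc⟩ := wg_ball μ (x := x) (half_pos r0) hi fun g c1 sp v => by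
      rw [e] at sp
      refine Eq.trans (integral_congr_ae (Eventually.of_forall fun a => ?_))
        (h g c1 ((isCompact_closedBall x r).of_isClosed_subset (isClosed_tsupport g) sp)
          (sp.trans hr) v)
      by_cases k : a ∈ closedBall x r
      · simp only [indicator_of_mem k]
      · simp only [fderiv_of_notMem_tsupport ℝ fun j => k (sp j), zero_apply, mul_zero]
    refine ⟨r / 2, half_pos r0, c, hc.mono fun a ha k => ?_⟩
    rw [← ha k, indicator_of_mem ((ball_subset_ball (half_le_self r0.le)).trans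
      ball_subset_closedBall k)]
  choose! r r0 c hc' using loc
  have lc : ∀ x ∈ U, ∀ y ∈ U, y ∈ ball x (r x) → c y = c x := by
    intro x hx y hy k
    by_contra ne
    refine ((isOpen_ball.inter isOpen_ball).measure_pos μ
      ⟨y, k, mem_ball_self (r0 y hy)⟩).ne' (measure_eq_zero_iff_ae_notMem.2 ?_)
    filter_upwards [hc' x hx, hc' y hy] with a a1 a2 j
    exact ne ((a2 j.2).symm.trans (a1 j.1))
  rcases U.eq_empty_or_nonempty with rfl | ⟨x, hx⟩
  · exact ⟨0, Eventually.of_forall fun _ k => k.elim⟩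
  have : PreconnectedSpace U := Subtype.preconnectedSpace hc
  have hl : IsLocallyConstant fun y : U => c y := (IsLocallyConstant.iff_eventually_eq _).2
    fun y => (continuous_subtype_val.continuousAt.eventually
      (ball_mem_nhds y.1 (r0 y y.2))).mono fun z hz => lc y y.2 z z.2 hz
  refine ⟨c x, ?_⟩
  have z := measure_null_of_locally_null (μ := μ) {a ∈ U | n a ≠ c x} fun y hy =>
    ⟨_, inter_mem_nhdsWithin _ (ball_mem_nhds y (r0 y hy.1)), measure_eq_zero_iff_ae_notMem.2
      ((hc' y hy.1).mono fun a ha k => k.1.2 ((ha k.2).trans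
        (hl.apply_eq_of_preconnectedSpace ⟨y, hy.1⟩ ⟨x, hx⟩)))⟩
  exact (measure_eq_zero_iff_ae_notMem.1 z).mono fun a ha k => not_not.1 fun e => ha ⟨k, e⟩

end Pool.Agent.MP_3ee8cb_gt.CZW
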